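import Pool.Agent.Run7.h432.AC.Stm

/-!
# Algebraically closed associative algebras: piece CONST
-/

set_option autoImplicit false
set_option linter.unusedSectionVars false

namespace Run7.h930.AC.CONST

open MvPolynomial Run7.h432.AC

section
variable {E : Type} [Field E] [CharZero E] [DD E]

lemma d1_homog (m : Unit × ℕ × ℕ →₀ ℕ) (a : E) : ∃ k,
    (monomial m a : DP E Unit).IsHomogeneous k ∧
      (DD.d1 (monomial m a : DP E Unit)).IsHomogeneous k := by
  refine MvPolynomial.induction_on_monomial (motive := fun p => ∃ k,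
    (p : DP E Unit).IsHomogeneous k ∧ (DD.d1 (p : DP E Unit)).IsHomogeneous k) ?_ ?_ m a
  · intro a
    exact ⟨0, isHomogeneous_C _ a, by rw [dp_d1_C]; exact isHomogeneous_C _ _⟩
  · rintro p ⟨s, i, j⟩ ⟨k, h1, h2⟩
    refine ⟨k + 1, h1.mul (isHomogeneous_X _ _), ?_⟩
    rw [DD.mul1, dp_d1_X]
    refine (h1.mul (isHomogeneous_X _ _)).add ?_
    rw [mul_comm]
    exact h2.mul (isHomogeneous_X _ _)

lemma d1_totalDegree (p : DP E Unit) : (DD.d1 p).totalDegree ≤ p.totalDegree := by
  classical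
  have h1 : DD.d1 p = ∑ m ∈ p.support, DD.d1 (monomial m (coeff m p) : DP E Unit) := by
    conv_lhs => rw [p.as_sum]
    rw [map_sum]
  rw [h1]
  refine (totalDegree_finsetSum _ _).trans (Finset.sup_le fun m hm => ?_)
  obtain ⟨k, h2, h3⟩ := d1_homog m (coeff m p)
  have h4 : (monomial m (coeff m p) : DP E Unit) ≠ 0 := by
    rw [Ne, monomial_eq_zero]
    exact mem_support_iff.mp hm
  have h5 : k = m.degree := by
    have h6 := h2.totalDegree h4
    rw [← h6, totalDegree_monomial _ (mem_support_iff.mp hm)]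
    rfl
  refine h3.totalDegree_le.trans ?_
  rw [h5]
  exact le_totalDegree hm

/-- the commutator of a partial derivative with `d1` -/
lemma pderiv_d1 (i j : ℕ) (p : DP E Unit) :
    pderiv ((), i + 1, j) (DD.d1 p) =
      DD.d1 (pderiv ((), i + 1, j) p) + pderiv ((), i, j) p := by
  classical
  induction p using MvPolynomial.induction_on with
  | C a => simp
  | add p q hp hq =>
    simp only [map_add, hp, hq]
    abel
  | mul_X p n hp =>
    obtain ⟨⟨⟩, i', j'⟩ := n
    have h1 : (pderiv ((), i + 1, j) (X ((), i' + 1, j') : DP E Unit)) =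
        pderiv ((), i, j) (X ((), i', j') : DP E Unit) := by
      rw [pderiv_X, pderiv_X, Pi.single_apply, Pi.single_apply]
      congr 1
      simp
    have h2 : (DD.d1 (pderiv ((), i + 1, j) (X ((), i', j') : DP E Unit))) = 0 := by
      rw [pderiv_X, Pi.single_apply]
      split_ifs
      · have := dp_d1_C (A := E) (S := Unit) 1
        have h3 : (DD.d1 (1 : E)) = 0 := by
          have h := DD.mul1 (1 : E) 1
          simpa using h
        rw [h3, map_zero, map_one] at this
        exact this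
      · exact map_zero _
    rw [DD.mul1, dp_d1_X, map_add, Derivation.leibniz, Derivation.leibniz, Derivation.leibniz,
      Derivation.leibniz, hp, h1]
    simp only [smul_eq_mul, map_add]
    rw [DD.mul1, DD.mul1, h2, dp_d1_X]
    ring

omit [DD E] in
lemma pderiv_ne_zero_of_mem {σ : Type} (p : MvPolynomial σ E) (v : σ) (hv : v ∈ p.vars) :
    pderiv v p ≠ 0 := by
  classical
  obtain ⟨m, hm, hvm⟩ := (mem_vars_iff_mem_support v).mp hv
  intro h0
  have h1 := coeff_pderiv (i := v) p (m - Finsupp.single v 1)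
  have h2 : m - Finsupp.single v 1 + Finsupp.single v 1 = m := by
    apply tsub_add_cancel_of_le
    rw [Finsupp.single_le_iff]
    exact Nat.one_le_iff_ne_zero.mpr (Finsupp.mem_support_iff.mp hvm)
  rw [h0, coeff_zero, h2] at h1
  rcases mul_eq_zero.mp h1.symm with h3 | h3
  · exact mem_support_iff.mp hm h3
  · exact absurd h3 (Nat.cast_add_one_ne_zero _)

lemma const_of_dvd (p : DP E Unit) (h : p ∣ DD.d1 p) : ∃ e : E, p = C e := by
  classical
  by_contra hne
  have hv : p.vars.Nonempty := by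
    rw [Finset.nonempty_iff_ne_empty]
    intro h0
    exact hne ⟨_, vars_eq_empty_iff_eq_C.mp h0⟩
  obtain ⟨⟨⟨⟩, i, j⟩, hρ, hmax⟩ := Finset.exists_max_image p.vars (fun v => v.2.1) hv
  have hv0 : (((), i + 1, j) : Unit × ℕ × ℕ) ∉ p.vars := by
    intro h1
    have h2 : i + 1 ≤ i := hmax _ h1
    omega
  have h1 := pderiv_d1 i j p
  rw [pderiv_eq_zero_of_notMem_vars hv0, map_zero, zero_add] at h1
  have h2 := pderiv_ne_zero_of_mem p _ hρ
  obtain ⟨s, hs⟩ := h
  have hp0 : p ≠ 0 := by
    rintro rfl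
    exact hne ⟨0, by simp⟩
  have hd0 : DD.d1 p ≠ 0 := by
    intro h3
    rw [h3, map_zero] at h1
    exact h2 h1.symm
  have hs0 : s ≠ 0 := by
    rintro rfl
    rw [mul_zero] at hs
    exact hd0 hs
  have h3 := totalDegree_mul_of_isDomain hp0 hs0
  have h4 := d1_totalDegree p
  rw [hs, h3] at h4
  have h5 : s.totalDegree = 0 := by omega
  rw [totalDegree_eq_zero_iff_eq_C] at h5
  rw [hs, h5, mul_comm, pderiv_C_mul, pderiv_eq_zero_of_notMem_vars hv0, mul_zero] at h1
  exact h2 h1.symm

end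

theorem t_CONST : S_CONST := by
  intro E _ _ _ c hc
  obtain ⟨p, ⟨q, hq⟩, hpq, hc2⟩ := IsFractionRing.exists_reduced_fraction (DP E Unit) c
  have hq0 : algebraMap (DP E Unit) (FractionRing (DP E Unit)) q ≠ 0 :=
    IsFractionRing.to_map_ne_zero_of_mem_nonZeroDivisors hq
  have h1 : c * algebraMap (DP E Unit) (FractionRing (DP E Unit)) q =
      algebraMap (DP E Unit) (FractionRing (DP E Unit)) p := by
    rw [← hc2]
    exact IsLocalization.mk'_spec _ p ⟨q, hq⟩
  have h2 : c * algebraMap (DP E Unit) (FractionRing (DP E Unit)) (DD.d1 q) =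
      algebraMap (DP E Unit) (FractionRing (DP E Unit)) (DD.d1 p) := by
    have h3 := congrArg (DD.d1 : FractionRing (DP E Unit) → _) h1
    rw [DD.mul1, hc, mul_zero, add_zero, ← (frac_isDD _).1, ← (frac_isDD _).1] at h3
    exact h3
  have h3 : p * DD.d1 q = q * DD.d1 p := by
    apply IsFractionRing.injective (DP E Unit) (FractionRing (DP E Unit))
    rw [map_mul, map_mul, ← h1, ← h2]
    ring
  have hp : p ∣ DD.d1 p := hpq.dvd_of_dvd_mul_left ⟨DD.d1 q, h3.symm⟩
  have hq' : q ∣ DD.d1 q := hpq.symm.dvd_of_dvd_mul_left ⟨DD.d1 p, h3⟩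
  obtain ⟨a, rfl⟩ := const_of_dvd p hp
  obtain ⟨b, rfl⟩ := const_of_dvd q hq'
  have hb : b ≠ 0 := by
    rintro rfl
    apply hq0
    rw [map_zero, map_zero]
  refine ⟨a / b, ?_⟩
  apply mul_right_cancel₀ hq0
  rw [h1, ← map_mul, ← map_mul, div_mul_cancel₀ _ hb]

end Run7.h930.AC.CONST
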