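import Pool.Agent.Run7.h432.AC.Stm

/-!
# Algebraically closed associative algebras: piece LT
-/

set_option autoImplicit false
set_option linter.unusedSectionVars false

namespace Run7.h930.AC.LT

open TensorProduct Run7.h432.AC

theorem lt_aux {P B ι : Type} [Field P] [DivisionRing B] [Algebra P B]
    (hc : ∀ b : B, (∀ x : B, b * x = x * b) → ∃ p : P, algebraMap P B p = b)
    (e : Module.Basis ι P B) : ∀ (n : ℕ) (f : ι →₀ B), f.support.card = n →
      (∀ z : B, (f.sum fun i c => c * z * e i) = 0) → f = 0 := by
  classical
  intro n
  induction n using Nat.strong_induction_on with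
  | _ n ih =>
    intro f hn hf
    by_contra hne
    obtain ⟨j, hj⟩ := Finsupp.support_nonempty_iff.mpr hne
    have hj0 : f j ≠ 0 := Finsupp.mem_support_iff.mp hj
    let f' : ι →₀ B := f.mapRange (fun c => (f j)⁻¹ * c) (by simp)
    have hf'j : f' j = 1 := by
      show (f j)⁻¹ * f j = 1
      exact inv_mul_cancel₀ hj0
    have hf' : ∀ z : B, (f'.sum fun i c => c * z * e i) = 0 := by
      intro z
      have h1 : (f'.sum fun i c => c * z * e i) =
          (f j)⁻¹ * (f.sum fun i c => c * z * e i) := by
        rw [Finsupp.sum_mapRange_index (by simp), Finsupp.mul_sum]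
        refine Finsupp.sum_congr fun i _ => ?_
        simp only [mul_assoc]
      rw [h1, hf, mul_zero]
    have hcomm : ∀ (i : ι) (d : B), f' i * d = d * f' i := by
      intro i d
      let g : ι →₀ B := f'.mapRange (fun c => c * d - d * c) (by simp)
      have hg : ∀ z : B, (g.sum fun i c => c * z * e i) = 0 := by
        intro z
        have h1 : (g.sum fun i c => c * z * e i) =
            (f'.sum fun i c => c * (d * z) * e i) - d * (f'.sum fun i c => c * z * e i) := by
          rw [Finsupp.sum_mapRange_index (by simp), Finsupp.mul_sum, ← Finsupp.sum_sub]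
          refine Finsupp.sum_congr fun i _ => ?_
          simp only [sub_mul, mul_assoc]
        rw [h1, hf', hf', mul_zero, sub_zero]
      have hcard : g.support.card < n := by
        rw [← hn]
        apply Finset.card_lt_card
        rw [Finset.ssubset_iff_of_subset]
        · refine ⟨j, hj, ?_⟩
          rw [Finsupp.notMem_support_iff]
          show f' j * d - d * f' j = 0
          rw [hf'j]
          simp
        · intro i hi
          rw [Finsupp.mem_support_iff] at hi ⊢
          intro h0
          apply hi
          show (f j)⁻¹ * f i * d - d * ((f j)⁻¹ * f i) = 0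
          rw [h0]
          simp
      have h0 := ih _ hcard g rfl hg
      have h1 : g i = 0 := by rw [h0]; rfl
      have h2 : f' i * d - d * f' i = 0 := h1
      exact sub_eq_zero.mp h2
    choose p hp using fun i => hc (f' i) (hcomm i)
    have h1 : Finsupp.linearCombination P (e : ι → B)
        (f'.mapRange (fun c => if c = 0 then (0 : P) else Function.invFun (algebraMap P B) c)
          (by simp)) = 0 := by
      rw [Finsupp.linearCombination_apply, Finsupp.sum_mapRange_index (by simp)]
      refine Eq.trans ?_ (hf' 1)
      refine Finsupp.sum_congr fun i hi => ?_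
      rw [if_neg (Finsupp.mem_support_iff.mp hi), Algebra.smul_def, mul_one,
        Function.invFun_eq ⟨p i, hp i⟩]
    have h2 := e.linearIndependent
    rw [linearIndependent_iff] at h2
    have h3 := h2 _ h1
    have h4 := DFunLike.congr_fun h3 j
    have h5 : (if f' j = 0 then (0 : P) else Function.invFun (algebraMap P B) (f' j)) = 0 := h4
    rw [hf'j, if_neg one_ne_zero] at h5
    have h6 : algebraMap P B (Function.invFun (algebraMap P B) 1) = 1 :=
      Function.invFun_eq ⟨1, map_one _⟩
    rw [h5, map_zero] at h6
    exact zero_ne_one h6

theorem t_LT : S_LT := by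
  classical
  intro P B _ _ _ hc t ht
  let e := Module.Basis.ofVectorSpace P B
  let f := TensorProduct.equivFinsuppOfBasisRight (M := B) e t
  have hf : t = f.sum fun i c => c ⊗ₜ[P] e i := by
    have h1 : t = (TensorProduct.equivFinsuppOfBasisRight (M := B) e).symm f :=
      ((TensorProduct.equivFinsuppOfBasisRight (M := B) e).symm_apply_apply t).symm
    have h2 := LinearMap.congr_fun
      (TensorProduct.equivFinsuppOfBasisRight_symm (R := P) (M := B) e) f
    rw [h1]
    refine h2.trans ?_
    rw [Finsupp.lsum_apply]
    rfl
  have h0 : f = 0 := by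
    apply lt_aux hc e _ f rfl
    intro z
    have h1 := ht z
    rw [hf, Finsupp.sum, map_sum] at h1
    rw [← h1, Finsupp.sum]
    exact Finset.sum_congr rfl fun i _ => (opz_tmul P z _ _).symm
  rw [hf, h0]
  simp

end Run7.h930.AC.LT
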