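import Pool.Agent.Run7.h432.AC.Stm

/-!
# Algebraically closed associative algebras: piece TAY
-/

set_option autoImplicit false
set_option linter.unusedSectionVars false

namespace Run7.h930.AC.TAY

open Run7.h432.AC

section
variable {B L : Type} [CommRing B] [DD B] [Field L] [CharZero L]

/-- the mixed derivatives -/
abbrev jt {A : Type} [CommRing A] [DD A] (i j : ℕ) (a : A) : A :=
  (DD.d1 : A →+ A)^[i] ((DD.d2 : A →+ A)^[j] a)

lemma jt_d2 {A : Type} [CommRing A] [DD A] (i j : ℕ) (a : A) :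
    jt i j (DD.d2 a) = jt i (j + 1) a := by
  rw [jt, jt, Function.iterate_succ_apply]

lemma jt_d1 {A : Type} [CommRing A] [DD A] (i j : ℕ) (a : A) :
    jt i j (DD.d1 a) = jt (i + 1) j a := by
  have h : ∀ j : ℕ, (DD.d2 : A →+ A)^[j] (DD.d1 a) = DD.d1 ((DD.d2 : A →+ A)^[j] a) := by
    intro j
    induction j with
    | zero => rfl
    | succ j ih => rw [Function.iterate_succ_apply', ih, ← DD.comm, Function.iterate_succ_apply']
  rw [jt, jt, h, Function.iterate_succ_apply]

lemma jt_add {A : Type} [CommRing A] [DD A] (i j : ℕ) (a b : A) :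
    jt i j (a + b) = jt i j a + jt i j b := by
  rw [jt, iterate_map_add, iterate_map_add]

/-- `F` is the Taylor series of `b`. -/
def Rel (ε : B →+* L) (F : MvPowerSeries (Fin 2) L) (b : B) : Prop :=
  ∀ i j, MvPowerSeries.constantCoeff (jt i j F) = ε (jt i j b)

lemma Rel.d1 {ε : B →+* L} {F : MvPowerSeries (Fin 2) L} {b : B} (h : Rel ε F b) :
    Rel ε (DD.d1 F) (DD.d1 b) := by
  intro i j
  rw [jt_d1, jt_d1]
  exact h _ _

lemma Rel.d2 {ε : B →+* L} {F : MvPowerSeries (Fin 2) L} {b : B} (h : Rel ε F b) :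
    Rel ε (DD.d2 F) (DD.d2 b) := by
  intro i j
  rw [jt_d2, jt_d2]
  exact h _ _

lemma Rel.add {ε : B →+* L} {F G : MvPowerSeries (Fin 2) L} {a b : B} (h : Rel ε F a)
    (h' : Rel ε G b) : Rel ε (F + G) (a + b) := by
  intro i j
  rw [jt_add, jt_add, map_add, map_add, h, h']

lemma rel_mul_aux {ε : B →+* L} : ∀ (n : ℕ) (F : MvPowerSeries (Fin 2) L) (a : B)
    (G : MvPowerSeries (Fin 2) L) (b : B), Rel ε F a → Rel ε G b → ∀ i j, i + j = n →
      MvPowerSeries.constantCoeff (jt i j (F * G)) = ε (jt i j (a * b)) := by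
  intro n
  induction n with
  | zero =>
    intro F a G b hF hG i j hij
    obtain ⟨rfl, rfl⟩ : i = 0 ∧ j = 0 := by omega
    have h1 := hF 0 0
    have h2 := hG 0 0
    simp only [jt, Function.iterate_zero, id] at h1 h2 ⊢
    rw [map_mul, map_mul, h1, h2]
  | succ n ih =>
    intro F a G b hF hG i j hij
    rcases j with _ | j
    · rcases i with _ | i
      · omega
      · rw [← jt_d1, ← jt_d1, DD.mul1, DD.mul1, jt_add, jt_add, map_add, map_add,
          ih F a _ _ hF hG.d1 i 0 (by omega), ih G b _ _ hG hF.d1 i 0 (by omega)]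
    · rw [← jt_d2, ← jt_d2, DD.mul2, DD.mul2, jt_add, jt_add, map_add, map_add,
        ih F a _ _ hF hG.d2 i j (by omega), ih G b _ _ hG hF.d2 i j (by omega)]

lemma Rel.mul {ε : B →+* L} {F G : MvPowerSeries (Fin 2) L} {a b : B} (h : Rel ε F a)
    (h' : Rel ε G b) : Rel ε (F * G) (a * b) :=
  fun i j => rel_mul_aux (i + j) F a G b h h' i j rfl

omit [CharZero L] in
lemma coeff_iter1 (k : ℕ) (F : MvPowerSeries (Fin 2) L) (m : Fin 2 →₀ ℕ) :
    MvPowerSeries.coeff m ((DD.d1 : MvPowerSeries (Fin 2) L →+ _)^[k] F) =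
      ((m 0 + 1).ascFactorial k : L) * MvPowerSeries.coeff (m + Finsupp.single 0 k) F := by
  induction k generalizing F with
  | zero => simp
  | succ k ih =>
    rw [Function.iterate_succ_apply, ih, mvps_d1, MvPowerSeries.coeff_pderiv, Nat.ascFactorial_succ,
      add_assoc m, ← Finsupp.single_add, Finsupp.add_apply, Finsupp.single_eq_same]
    push_cast
    ring

omit [CharZero L] in
lemma coeff_iter2 (k : ℕ) (F : MvPowerSeries (Fin 2) L) (m : Fin 2 →₀ ℕ) :
    MvPowerSeries.coeff m ((DD.d2 : MvPowerSeries (Fin 2) L →+ _)^[k] F) =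
      ((m 1 + 1).ascFactorial k : L) * MvPowerSeries.coeff (m + Finsupp.single 1 k) F := by
  induction k generalizing F with
  | zero => simp
  | succ k ih =>
    rw [Function.iterate_succ_apply, ih, mvps_d2, MvPowerSeries.coeff_pderiv, Nat.ascFactorial_succ,
      add_assoc m, ← Finsupp.single_add, Finsupp.add_apply, Finsupp.single_eq_same]
    push_cast
    ring

/-- the exponent -/
noncomputable def ex (i j : ℕ) : Fin 2 →₀ ℕ := Finsupp.single 0 i + Finsupp.single 1 j

lemma ex_eq (m : Fin 2 →₀ ℕ) : ex (m 0) (m 1) = m := by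
  ext s
  fin_cases s
  · simp [ex]
  · simp [ex]

lemma ex_zero (i j : ℕ) : ex i j 0 = i := by simp [ex]
lemma ex_one (i j : ℕ) : ex i j 1 = j := by simp [ex]

omit [CharZero L] in
lemma cc_jt (i j : ℕ) (F : MvPowerSeries (Fin 2) L) :
    MvPowerSeries.constantCoeff (jt i j F) =
      (i.factorial : L) * ((j.factorial : L) * MvPowerSeries.coeff (ex i j) F) := by
  rw [← MvPowerSeries.coeff_zero_eq_constantCoeff_apply, jt, coeff_iter1, coeff_iter2]
  simp [Nat.one_ascFactorial, ex]

lemma Rel.unique {ε : B →+* L} {F G : MvPowerSeries (Fin 2) L} {b : B} (h : Rel ε F b)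
    (h' : Rel ε G b) : F = G := by
  ext m
  have h1 := (h (m 0) (m 1)).trans (h' (m 0) (m 1)).symm
  rw [cc_jt, cc_jt, ex_eq] at h1
  have h2 : (((m 0).factorial : ℕ) : L) ≠ 0 := Nat.cast_ne_zero.mpr (Nat.factorial_ne_zero _)
  have h3 : (((m 1).factorial : ℕ) : L) ≠ 0 := Nat.cast_ne_zero.mpr (Nat.factorial_ne_zero _)
  exact mul_left_cancel₀ h3 (mul_left_cancel₀ h2 h1)

/-- The Taylor series. -/
noncomputable def tay (ε : B →+* L) (b : B) : MvPowerSeries (Fin 2) L :=
  fun m => ε (jt (m 0) (m 1) b) / (((m 0).factorial : L) * ((m 1).factorial : L))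

lemma rel_tay (ε : B →+* L) (b : B) : Rel ε (tay ε b) b := by
  intro i j
  rw [cc_jt]
  have h1 : MvPowerSeries.coeff (ex i j) (tay ε b) =
      ε (jt i j b) / (((i.factorial : ℕ) : L) * ((j.factorial : ℕ) : L)) := by
    show ε (jt (ex i j 0) (ex i j 1) b) /
      ((((ex i j 0).factorial : ℕ) : L) * (((ex i j 1).factorial : ℕ) : L)) = _
    rw [ex_zero, ex_one]
  rw [h1]
  have h2 : ((i.factorial : ℕ) : L) ≠ 0 := Nat.cast_ne_zero.mpr (Nat.factorial_ne_zero _)
  have h3 : ((j.factorial : ℕ) : L) ≠ 0 := Nat.cast_ne_zero.mpr (Nat.factorial_ne_zero _)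
  field_simp

lemma tay_mul (ε : B →+* L) (a b : B) : tay ε (a * b) = tay ε a * tay ε b :=
  (rel_tay ε _).unique ((rel_tay ε a).mul (rel_tay ε b))

lemma tay_add (ε : B →+* L) (a b : B) : tay ε (a + b) = tay ε a + tay ε b :=
  (rel_tay ε _).unique ((rel_tay ε a).add (rel_tay ε b))

lemma tay_one (ε : B →+* L) : tay ε 1 = 1 := by
  have h1 : tay ε (1 : B) * tay ε 1 = tay ε 1 := by rw [← tay_mul, mul_one]
  have h2 : tay ε (1 : B) ≠ 0 := by
    intro h
    have h3 := rel_tay ε (1 : B) 0 0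
    rw [h] at h3
    simp [jt] at h3
  exact mul_left_cancel₀ h2 (by rw [h1, mul_one])

/-- The Taylor homomorphism. -/
noncomputable def tayHom (ε : B →+* L) : B →+* MvPowerSeries (Fin 2) L where
  toFun := tay ε
  map_one' := tay_one ε
  map_mul' := tay_mul ε
  map_zero' := by
    have h := tay_add ε 0 0
    rw [add_zero] at h
    exact left_eq_add.mp h
  map_add' := tay_add ε

end

theorem t_TAY : S_TAY := by
  intro B L _ _ _ _ ε
  refine ⟨tayHom ε, ⟨fun a => ?_, fun a => ?_⟩, fun b => ?_⟩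
  · exact (rel_tay ε _).unique (rel_tay ε a).d1
  · exact (rel_tay ε _).unique (rel_tay ε a).d2
  · constructor
    · intro h i j
      have h1 := rel_tay ε b i j
      have h2 : tay ε b = 0 := h
      rw [cc_jt, h2] at h1
      rw [← h1]
      simp
    · intro h
      show tay ε b = 0
      ext m
      show ε (jt (m 0) (m 1) b) / _ = 0
      rw [jt, h, zero_div]

end Run7.h930.AC.TAY
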